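import Pool.Agent.H52.GC.Fin

/-!
# Definable terms and predicates with bounded quantifiers

`PD hN s`: the set-valued function `s` of elements of the model is definable (graph) and has values
in the model.  The predicates `Df.*` say that atomic formulas and bounded quantifiers built from such
terms are definable.
-/

set_option autoImplicit false
set_option linter.unusedVariables false
set_option linter.unusedSectionVars false
set_option linter.unusedSimpArgs false

universe u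

open Pool.Agent.H17.Omega Pool.Agent.H17.Omega.CTM Pool.Agent.H52.GC

namespace Pool.Agent.H17.CF

variable {N : Set ZFSet.{u}} {hN : CTM N}

/-! ### General substitution -/

theorem exFinC {n : ℕ} : ∀ (m : ℕ) {Q : (Fin (n + m) → N) → Prop}, hN.Dfn Q →
    hN.Dfn (fun v : Fin n → N => ∃ w : Fin m → N, Q (Fin.append v w))
  | 0, Q, h => h.congr fun v => by
      constructor
      · intro h; exact ⟨Fin.elim0, by rwa [Fin.append_right_nil _ _ rfl]⟩
      · rintro ⟨w, h⟩; rwa [Fin.append_right_nil _ _ rfl] at h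
  | m + 1, Q, h => by
    have h1 : hN.Dfn (fun v : Fin (n + m) → N => ∃ x : N, Q (Fin.snoc (α := fun _ => N) v x)) := by
      refine Dfn.ex (P := fun v x => Q (Fin.snoc (α := fun _ => N) v x)) (h.congr fun v => ?_)
      have : (Fin.snoc (α := fun _ => N) (fun i : Fin (n + m) => v i.castSucc) (v (Fin.last (n + m)))) =
          v := Fin.snoc_init_self v
      exact Iff.of_eq (congrArg Q this).symm
    refine (exFinC m h1).congr fun v => ?_
    constructor
    · rintro ⟨w, x, h⟩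
      refine ⟨Fin.snoc (α := fun _ => N) w x, ?_⟩
      rw [Fin.append_snoc]
      exact h
    · rintro ⟨w, h⟩
      refine ⟨fun i => w i.castSucc, w (Fin.last m), ?_⟩
      rw [← Fin.append_snoc]
      have : (Fin.snoc (α := fun _ => N) (fun i : Fin m => w i.castSucc) (w (Fin.last m))) =
          w := Fin.snoc_init_self w
      rw [this]
      exact h

theorem allFiniteC {n : ℕ} : ∀ (m : ℕ) {Q : Fin m → (Fin n → N) → Prop}, (∀ i, hN.Dfn (Q i)) →
    hN.Dfn (fun v => ∀ i, Q i v)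
  | 0, Q, h => (Dfn.const True).congr fun v => by simp
  | m + 1, Q, h => by
    refine ((allFiniteC m (Q := fun i => Q i.castSucc) (fun i => h _)).and (h (Fin.last m))).congr
      fun v => ?_
    constructor
    · rintro ⟨h1, h2⟩ i
      exact Fin.lastCases h2 h1 i
    · intro h
      exact ⟨fun i => h _, h _⟩

theorem liftNC {n : ℕ} {s : (Fin n → N) → N} (h : hN.DT s) : ∀ m : ℕ,
    hN.DT (fun v : Fin (n + m) → N => s (fun i => v (Fin.castAdd m i)))
  | 0 => h
  | m + 1 => (liftNC h m).lift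

/-- General substitution. -/
theorem substC {m n : ℕ} {P : (Fin m → N) → Prop} (h : hN.Dfn P) {t : Fin m → (Fin n → N) → N}
    (ht : ∀ i, hN.DT (t i)) : hN.Dfn (fun v => P (fun i => t i v)) := by
  have h1 : hN.Dfn (fun v : Fin (n + m) → N =>
      (∀ i : Fin m, v (Fin.natAdd n i) = t i (fun j => v (Fin.castAdd m j))) ∧
        P (fun i => v (Fin.natAdd n i))) :=
    (allFiniteC m fun i => Dfn.eq (DT.var _) (liftNC (ht i) m)).and (h.shift n)
  refine (exFinC m h1).congr fun v => ?_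
  constructor
  · rintro ⟨w, h2, h3⟩
    simp only [Fin.append_left, Fin.append_right] at h2 h3
    have : (fun i => t i v) = w := funext fun i => (h2 i).symm
    rw [this]; exact h3
  · intro h2
    refine ⟨fun i => t i v, ?_, ?_⟩
    · intro i; simp only [Fin.append_left, Fin.append_right]
    · simp only [Fin.append_right]; exact h2

theorem reidxC {m n : ℕ} {P : (Fin m → N) → Prop} (h : hN.Dfn P) (ρ : Fin m → Fin n) :
    hN.Dfn (fun v => P (fun i => v (ρ i))) := substC h fun i => DT.var (ρ i)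

/-- Instantiate the first variables by constants, keep the last one. -/
theorem instC {n : ℕ} {P : (Fin n → N) → N → Prop}
    (h : hN.Dfn (fun v : Fin (n + 1) → N => P (fun i => v i.castSucc) (v (Fin.last n)))) (v : Fin n → N) :
    hN.Dfn (fun w : Fin 1 → N => P v (w 0)) := by
  have h1 := substC (n := 1) h (t := fun i => Fin.lastCases (motive := fun _ => (Fin 1 → N) → N)
    (fun w => w 0) (fun j _ => v j) i) (fun i => by
      refine Fin.lastCases ?_ (fun j => ?_) i
      · simp only [Fin.lastCases_last]; exact DT.var _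
      · simp only [Fin.lastCases_castSucc]; exact DT.const _)
  simpa only [Fin.lastCases_last, Fin.lastCases_castSucc] using h1

/-! ### Definable terms -/

/-- Definable terms with values in the model. -/
def PD (hN : CTM N) {n : ℕ} (s : (Fin n → N) → ZFSet.{u}) : Prop :=
  (∀ v, s v ∈ N) ∧ hN.Dfn (fun v : Fin (n + 1) → N => (v (Fin.last n)).1 = s (fun i => v i.castSucc))

namespace PD

variable {n : ℕ} {s t r s1 s2 s3 s4 s5 s6 s7 s8 : (Fin n → N) → ZFSet.{u}}

theorem var (i : Fin n) : PD hN (fun v => (v i).1) :=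
  ⟨fun v => (v i).2, Dfn.eqv DT.last (DT.var _)⟩

theorem const {a : ZFSet.{u}} (ha : a ∈ N) : PD hN (fun _ : Fin n → N => a) :=
  ⟨fun v => ha, Dfn.eqv (t := fun _ => ⟨a, ha⟩) DT.last (DT.const _)⟩

theorem lift (h : PD hN s) : PD hN (fun v : Fin (n + 1) → N => s (fun i => v i.castSucc)) := by
  refine ⟨fun v => h.1 _, ?_⟩
  have h1 := reidxC (n := n + 2) h.2 (fun i => Fin.lastCases (motive := fun _ => Fin (n + 2))
    (Fin.last (n + 1)) (fun j => j.castSucc.castSucc) i)
  simpa only [Fin.lastCases_last, Fin.lastCases_castSucc] using h1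

theorem congr {s' : (Fin n → N) → ZFSet.{u}} (h : PD hN s) (hs : ∀ v, s v = s' v) : PD hN s' := by
  rw [← funext hs]; exact h

/-- Substitution of a definable term for the last variable. -/
theorem use {P : (Fin n → N) → ZFSet.{u} → Prop} (hs : PD hN s)
    (h : hN.Dfn (fun v : Fin (n + 1) → N => P (fun i => v i.castSucc) (v (Fin.last n)).1)) :
    hN.Dfn (fun v => P v (s v)) := by
  refine (Dfn.ex (P := fun v x => x.1 = s v ∧ P v x.1) (hs.2.and h)).congr fun v => ?_
  constructor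
  · rintro ⟨x, hx, h1⟩; rw [← hx]; exact h1
  · intro h1; exact ⟨⟨_, hs.1 v⟩, rfl, h1⟩

end PD

namespace Df

variable {n : ℕ} {s t r : (Fin n → N) → ZFSet.{u}}

theorem mem (hs : PD hN s) (ht : PD hN t) : hN.Dfn (fun v => s v ∈ t v) := by
  refine PD.use (P := fun v x => x ∈ t v) hs ?_
  refine PD.use (P := fun v y => (v (Fin.last n)).1 ∈ y) ht.lift ?_
  exact Dfn.mem (DT.var _) (DT.var _)

theorem eq (hs : PD hN s) (ht : PD hN t) : hN.Dfn (fun v => s v = t v) := by
  refine PD.use (P := fun v x => x = t v) hs ?_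
  refine PD.use (P := fun v y => (v (Fin.last n)).1 = y) ht.lift ?_
  exact Dfn.eqv (DT.var _) (DT.var _)

theorem ball {P : (Fin n → N) → ZFSet.{u} → Prop} (hs : PD hN s)
    (h : hN.Dfn (fun v : Fin (n + 1) → N => P (fun i => v i.castSucc) (v (Fin.last n)).1)) :
    hN.Dfn (fun v => ∀ z ∈ s v, P v z) := by
  refine (Dfn.all (P := fun v x => x.1 ∈ s v → P v x.1) (Dfn.imp (mem (PD.var _) hs.lift) h)).congr fun v => ?_
  constructor
  · intro h1 z hz; exact h1 ⟨z, hN.mem_of_mem (hs.1 v) hz⟩ hz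
  · intro h1 z hz; exact h1 _ hz

theorem bex {P : (Fin n → N) → ZFSet.{u} → Prop} (hs : PD hN s)
    (h : hN.Dfn (fun v : Fin (n + 1) → N => P (fun i => v i.castSucc) (v (Fin.last n)).1)) :
    hN.Dfn (fun v => ∃ z ∈ s v, P v z) := by
  refine (Dfn.ex (P := fun v x => x.1 ∈ s v ∧ P v x.1) (Dfn.and (mem (PD.var _) hs.lift) h)).congr fun v => ?_
  constructor
  · rintro ⟨z, hz, h1⟩; exact ⟨z, hz, h1⟩
  · rintro ⟨z, hz, h1⟩; exact ⟨⟨z, hN.mem_of_mem (hs.1 v) hz⟩, hz, h1⟩

theorem sub (hs : PD hN s) (ht : PD hN t) : hN.Dfn (fun v => s v ⊆ t v) :=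
  (ball (P := fun v z => z ∈ t v) hs (mem (PD.var _) ht.lift)).congr fun v =>
    ⟨fun h z hz => h z hz, fun h z hz => h hz⟩

theorem isTrans (hs : PD hN s) : hN.Dfn (fun v => (s v).IsTransitive) :=
  PD.use (P := fun v x => x.IsTransitive) hs (Dfn.isTrans (DT.var _))

theorem isOrd (hs : PD hN s) : hN.Dfn (fun v => (s v).IsOrdinal) :=
  PD.use (P := fun v x => x.IsOrdinal) hs (Dfn.isOrd (DT.var _))

theorem isNat (hs : PD hN s) : hN.Dfn (fun v => IsNatZ (s v)) :=
  PD.use (P := fun v x => IsNatZ x) hs (Dfn.isNat (DT.var _))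

end Df

namespace PD

variable {n : ℕ} {s t r : (Fin n → N) → ZFSet.{u}}

theorem mk1 {F : ZFSet.{u} → ZFSet.{u}} (hF : ∀ x ∈ N, F x ∈ N)
    (hd : hN.Dfn (fun v : Fin 2 → N => (v 1).1 = F (v 0).1)) (hs : PD hN s) : PD hN (fun v => F (s v)) := by
  refine ⟨fun v => hF _ (hs.1 v), ?_⟩
  refine PD.use (P := fun v x => (v (Fin.last n)).1 = F x) hs.lift ?_
  exact reidxC (n := n + 2) hd ![Fin.last (n + 1), (Fin.last n).castSucc]

theorem mk2 {F : ZFSet.{u} → ZFSet.{u} → ZFSet.{u}} (hF : ∀ x ∈ N, ∀ y ∈ N, F x y ∈ N)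
    (hd : hN.Dfn (fun v : Fin 3 → N => (v 2).1 = F (v 0).1 (v 1).1)) (hs : PD hN s) (ht : PD hN t) :
    PD hN (fun v => F (s v) (t v)) := by
  refine ⟨fun v => hF _ (hs.1 v) _ (ht.1 v), ?_⟩
  refine PD.use (P := fun v x => (v (Fin.last n)).1 = F x (t (fun i => v i.castSucc))) hs.lift ?_
  refine PD.use (P := fun v y => (v (Fin.last n).castSucc).1 = F (v (Fin.last (n + 1))).1 y) ht.lift.lift ?_
  exact reidxC (n := n + 3) hd ![(Fin.last (n + 1)).castSucc, Fin.last (n + 2), (Fin.last n).castSucc.castSucc]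

theorem mk3 {F : ZFSet.{u} → ZFSet.{u} → ZFSet.{u} → ZFSet.{u}} (hF : ∀ x ∈ N, ∀ y ∈ N, ∀ z ∈ N, F x y z ∈ N)
    (hd : hN.Dfn (fun v : Fin 4 → N => (v 3).1 = F (v 0).1 (v 1).1 (v 2).1)) (hs : PD hN s) (ht : PD hN t)
    (hr : PD hN r) : PD hN (fun v => F (s v) (t v) (r v)) := by
  refine ⟨fun v => hF _ (hs.1 v) _ (ht.1 v) _ (hr.1 v), ?_⟩
  refine PD.use (P := fun v x => (v (Fin.last n)).1 = F x (t (fun i => v i.castSucc)) (r (fun i => v i.castSucc))) hs.lift ?_
  refine PD.use (P := fun v y => (v (Fin.last n).castSucc).1 = F (v (Fin.last (n + 1))).1 y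
    (r (fun i => v i.castSucc.castSucc))) ht.lift.lift ?_
  refine PD.use (P := fun v y => (v (Fin.last n).castSucc.castSucc).1 = F (v (Fin.last (n + 1)).castSucc).1
    (v (Fin.last (n + 2))).1 y) hr.lift.lift.lift ?_
  exact reidxC (n := n + 4) hd ![(Fin.last (n + 1)).castSucc.castSucc, (Fin.last (n + 2)).castSucc, Fin.last (n + 3),
    (Fin.last n).castSucc.castSucc.castSucc]

theorem pair (hs : PD hN s) (ht : PD hN t) : PD hN (fun v => ZFSet.pair (s v) (t v)) :=
  mk2 (fun x hx y hy => hN.pair_mem hx hy) (Dfn.isPair (DT.var _) (DT.var _) (DT.var _)) hs ht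

theorem upair (hs : PD hN s) (ht : PD hN t) : PD hN (fun v => ({s v, t v} : ZFSet.{u})) :=
  mk2 (F := fun x y => {x, y}) (fun x hx y hy => hN.upair_mem hx hy) (Dfn.isUpair (DT.var _) (DT.var _) (DT.var _)) hs ht

theorem insert (hs : PD hN s) (ht : PD hN t) : PD hN (fun v => Insert.insert (s v) (t v)) :=
  mk2 (F := fun x y => Insert.insert x y) (fun x hx y hy => hN.insert_mem hx hy)
    (Dfn.isInsert (DT.var _) (DT.var _) (DT.var _)) hs ht

theorem singleton (hs : PD hN s) : PD hN (fun v => ({s v} : ZFSet.{u})) :=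
  (upair hs hs).congr fun v => by ext z; simp

/-- Separation. -/
theorem sep {P : (Fin n → N) → ZFSet.{u} → Prop} (hs : PD hN s)
    (h : hN.Dfn (fun v : Fin (n + 1) → N => P (fun i => v i.castSucc) (v (Fin.last n)).1)) :
    PD hN (fun v => ZFSet.sep (P v) (s v)) := by
  refine ⟨fun v => hN.sep_mem (instC (P := fun v x => P v x.1) h v) (hs.1 v), ?_⟩
  have h2 : hN.Dfn (fun v : Fin (n + 2) → N => P (fun i => v i.castSucc.castSucc) (v (Fin.last (n + 1))).1) := by
    have h1 := reidxC (n := n + 2) h (fun i => Fin.lastCases (motive := fun _ => Fin (n + 2))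
      (Fin.last (n + 1)) (fun j => j.castSucc.castSucc) i)
    simpa only [Fin.lastCases_last, Fin.lastCases_castSucc] using h1
  refine Dfn.congr ?_ (Dfn.and (Df.ball (P := fun v z => z ∈ s (fun i => v i.castSucc) ∧ P (fun i => v i.castSucc) z)
    (PD.var (Fin.last n)) (Dfn.and (Df.mem (PD.var _) hs.lift.lift) h2))
    (Df.ball (P := fun v z => P (fun i => v i.castSucc) z → z ∈ (v (Fin.last n)).1) hs.lift (Dfn.imp h2
      (Df.mem (PD.var _) (PD.var _)))))
  intro v
  constructor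
  · rintro ⟨h3, h4⟩
    ext z
    rw [ZFSet.mem_sep]
    exact ⟨fun hz => h3 z hz, fun hz => h4 z hz.1 hz.2⟩
  · intro h3
    rw [h3]
    exact ⟨fun z hz => ZFSet.mem_sep.1 hz, fun z hz hz' => ZFSet.mem_sep.2 ⟨hz, hz'⟩⟩

theorem inter (hs : PD hN s) (ht : PD hN t) : PD hN (fun v => s v ∩ t v) :=
  (sep (P := fun v x => x ∈ t v) hs (Df.mem (PD.var _) ht.lift)).congr fun v => by ext z; simp

theorem sdiff (hs : PD hN s) (ht : PD hN t) : PD hN (fun v => s v \ t v) :=
  (sep (P := fun v x => ¬ x ∈ t v) hs (Dfn.not (Df.mem (PD.var _) ht.lift))).congr fun v => by ext z; simp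

theorem sUnion (hs : PD hN s) : PD hN (fun v => ZFSet.sUnion (s v)) := by
  refine mk1 (F := ZFSet.sUnion) (fun x hx => hN.sUnion_mem hx) ?_ hs
  refine Dfn.congr ?_ (Dfn.and (Df.ball (P := fun v z => ∃ y ∈ (v 0).1, z ∈ y) (PD.var (1 : Fin 2))
    (Df.bex (P := fun v y => (v (2 : Fin 3)).1 ∈ y) (PD.var 0) (Df.mem (PD.var _) (PD.var _))))
    (Df.ball (P := fun v y => y ⊆ (v 1).1) (PD.var (0 : Fin 2)) (Df.sub (PD.var _) (PD.var _))))
  intro v
  constructor
  · rintro ⟨h1, h2⟩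
    ext z
    rw [ZFSet.mem_sUnion]
    exact ⟨fun hz => h1 z hz, fun ⟨y, hy, hz⟩ => h2 y hy hz⟩
  · intro h1
    rw [h1]
    exact ⟨fun z hz => ZFSet.mem_sUnion.1 hz, fun y hy z hz => ZFSet.mem_sUnion.2 ⟨y, hy, hz⟩⟩

theorem union (hs : PD hN s) (ht : PD hN t) : PD hN (fun v => s v ∪ t v) :=
  (sUnion (upair hs ht)).congr fun v => by simp

theorem prod (hs : PD hN s) (ht : PD hN t) : PD hN (fun v => ZFSet.prod (s v) (t v)) := by
  refine mk2 (F := ZFSet.prod) (fun x hx y hy => hN.prod_mem hx hy) ?_ hs ht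
  refine Dfn.congr ?_ (Dfn.and (Df.ball (P := fun v z => ∃ x ∈ (v 0).1, ∃ y ∈ (v 1).1, z = ZFSet.pair x y)
    (PD.var (2 : Fin 3)) (Df.bex (P := fun v x => ∃ y ∈ (v 1).1, (v (3 : Fin 4)).1 = ZFSet.pair x y) (PD.var 0)
    (Df.bex (P := fun v y => (v (3 : Fin 5)).1 = ZFSet.pair (v 4).1 y) (PD.var 1)
    (Df.eq (PD.var _) (PD.pair (PD.var _) (PD.var _))))))
    (Df.ball (P := fun v x => ∀ y ∈ (v 1).1, ZFSet.pair x y ∈ (v 2).1) (PD.var (0 : Fin 3))
      (Df.ball (P := fun v y => ZFSet.pair (v (3 : Fin 4)).1 y ∈ (v 2).1) (PD.var 1)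
      (Df.mem (PD.pair (PD.var _) (PD.var _)) (PD.var _)))))
  intro v
  constructor
  · rintro ⟨h1, h2⟩
    ext z
    rw [ZFSet.mem_prod]
    refine ⟨fun hz => h1 z hz, ?_⟩
    rintro ⟨x, hx, y, hy, rfl⟩
    exact h2 x hx y hy
  · intro h1
    rw [h1]
    exact ⟨fun z hz => ZFSet.mem_prod.1 hz, fun x hx y hy => ZFSet.pair_mem_prod.2 ⟨hx, hy⟩⟩

end PD

end Pool.Agent.H17.CF
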