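import Pool.Agent.H17.CF.SO
import Pool.Agent.H17.CF.PD
import Pool.Agent.H7.IG.Defs

/-!
# MP_9b819f_lc: the interface between the forcing part and the decoding part

`N` is a countable transitive model, `κ` an infinite cardinal of `N`, `Ω = ω₁` of `N`, `lam = κ⁺` of `N`.
`K = El κ.toZFSet` is the set of the ordinals below `κ`.

TREES. `IsTree Ω X` (`X` a 4-ary relation on `K`): `X ![a, b, m, n]` means `π_{a b}(m) = n` where
`π_{a b} : ω → ω`, for levels `ω ≤ a < b < Ω`, is a coherent system of total functions (`(b, m)` is a node of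
level `b`, `(a, n)` its predecessor on level `a`).
`Rl N Ω X Y` : the level product of `X` and `Y` is special, in `N`: there is a colouring `(a, m, m') ↦ n` of
the nodes of the product by natural numbers such that comparable nodes on different levels get different
colours (`G` need not be single valued).

`Cd N κ` collects what the forcing part gives: a graph on rows `(μ, r)`, `μ < lam`, `r < 4`, and for every
tree `X` of `N` a set `A X` of cliques (of size at most `2`) of active rows.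
-/

set_option autoImplicit false
set_option linter.unusedVariables false
set_option linter.unusedSectionVars false
set_option linter.unusedSimpArgs false

open Pool.Agent.H17.Omega Pool.Agent.H17.Omega.CTM Pool.Agent.H52.GC Pool.Agent.H7.IG

namespace Pool.Agent.H17.CF

/-- `a` is a level: `ω ≤ a < Ω`. -/
def Lvl (Ω : Ordinal.{0}) (a : ZFSet.{0}) : Prop := a ∈ Ω.toZFSet ∧ omZ ⊆ a

/-- Coherent trees with levels `ω ≤ a < Ω` and the nodes `ω` on each level. -/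
structure IsTree (Ω : Ordinal.{0}) {A : ZFSet.{0}} (X : Set (Fin 4 → El A)) : Prop where
  dom : ∀ w ∈ X, Lvl Ω (w 0).1 ∧ Lvl Ω (w 1).1 ∧ (w 0).1 ∈ (w 1).1 ∧ (w 2).1 ∈ omZ ∧ (w 3).1 ∈ omZ
  tot : ∀ a b m : El A, Lvl Ω a.1 → Lvl Ω b.1 → a.1 ∈ b.1 → m.1 ∈ omZ → ∃ n : El A, ![a, b, m, n] ∈ X
  uni : ∀ a b m n n' : El A, ![a, b, m, n] ∈ X → ![a, b, m, n'] ∈ X → n = n'
  coh : ∀ a b c m n l : El A, ![b, c, m, n] ∈ X → ![a, b, n, l] ∈ X → ![a, c, m, l] ∈ X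

/-- The level product of the trees `X`, `Y` is special, in `N`. -/
def Rl (N : Set ZFSet.{0}) (Ω : Ordinal.{0}) {A : ZFSet.{0}} (X Y : Set (Fin 4 → El A)) : Prop :=
  ∃ G : Set (Fin 4 → El A), InN N G ∧
    (∀ a m m' : El A, Lvl Ω a.1 → m.1 ∈ omZ → m'.1 ∈ omZ → ∃ n : El A, n.1 ∈ omZ ∧ ![a, m, m', n] ∈ G) ∧
    ∀ a b m m' k k' n : El A, ![a, m, m', n] ∈ G → ![b, k, k', n] ∈ G →
      ![a, b, k, m] ∈ X → ![a, b, k', m'] ∈ Y → False

/-- The section of a relation. -/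
def sec {D : Type 1} {n : ℕ} (S : Set (Fin (n + 1) → D)) (a : D) : Set (Fin n → D) :=
  {w | (Fin.cons a w : Fin (n + 1) → D) ∈ S}

/-- Rows `(μ, r)`. -/
abbrev Row : Type 1 := Ordinal.{0} × ℕ

/-- The rows of stage below `α`. -/
def res (c : Set Row) (α : Ordinal.{0}) : Set Row := {x ∈ c | x.1 < α}

/-- The output of the forcing part. -/
structure Cd (N : Set ZFSet.{0}) (κ : Ordinal.{0}) where
  hN : CTM N
  /-- `κ` is an infinite cardinal of `N` -/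
  hκN : κ.toZFSet ∈ N
  hκω : Ordinal.omega0 ≤ κ
  hκ : ∀ α < κ, ¬ Cvr N α.toZFSet κ.toZFSet
  /-- `ω₁` of `N` -/
  Ω : Ordinal.{0}
  hΩ : IsOm1 N Ω
  hΩκ : Ω ≤ κ
  /-- `κ⁺` of `N` -/
  lam : Ordinal.{0}
  hlamN : lam.toZFSet ∈ N
  hlamκ : κ < lam
  hlam : ¬ Cvr N κ.toZFSet lam.toZFSet
  hcov : ∀ α < lam, Cvr N κ.toZFSet α.toZFSet
  /-- the active rows -/
  Act : Set Row
  act_lt : ∀ x ∈ Act, x.1 < lam ∧ x.2 < 4
  act3 : ∀ μ < lam, ∀ r < 3, (μ, r) ∈ Act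
  /-- `xr μ y`: the instruction `x_μ` is the row `y` -/
  xr : Ordinal.{0} → Row → Prop
  xr_uni : ∀ μ y z, xr μ y → xr μ z → y = z
  xr_lt : ∀ μ y, xr μ y → y.1 < μ ∧ y.2 < 4
  /-- `mr μ θ F`: the instruction `m_μ` is the marker `(θ, F)` -/
  mr : Ordinal.{0} → Ordinal.{0} → ZFSet.{0} → Prop
  mr_uni : ∀ μ θ F θ' F', mr μ θ F → mr μ θ' F' → θ = θ' ∧ F = F'
  mr_lt : ∀ μ θ F, mr μ θ F → κ * Ordinal.omega0 ≤ θ ∧ θ < μ ∧ F ⊆ (κ * Ordinal.omega0).toZFSet ∧ FinZ F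
  mr_act : ∀ μ, (μ, 3) ∈ Act → ∃ θ F, mr μ θ F
  /-- the edges of the graph: `x` is the upper and `y` the lower vertex -/
  Ed : Row → Row → Prop
  ed_iff : ∀ x y, Ed x y ↔ x ∈ Act ∧ y ∈ Act ∧ ((x.2 = 1 ∧ y.2 = 0 ∧ y.1 ≤ x.1) ∨ (x.2 = 2 ∧ xr x.1 y) ∨
    (x.2 = 3 ∧ y.2 = 0 ∧ ∃ θ F, mr x.1 θ F ∧ (y.1 = θ ∨ y.1.toZFSet ∈ F)))
  /-- the cliques -/
  Cl : Set (Set Row)
  cl_iff : ∀ c, c ∈ Cl ↔ c = ∅ ∨ (∃ x ∈ Act, c = {x}) ∨ ∃ x y, Ed x y ∧ c = {x, y}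
  /-- the invariant of a tree -/
  A : Set (Fin 4 → El κ.toZFSet) → Set (Set Row)
  A_sub : ∀ X, A X ⊆ Cl
  A_up : ∀ X, IsTree Ω X → InN N X → ∀ c ∈ A X, ∀ c' ∈ Cl, c ⊆ c' → c' ∈ A X
  /-- the product of two trees is special iff no clique belongs to both invariants -/
  A_R : ∀ X Y, IsTree Ω X → InN N X → IsTree Ω Y → InN N Y → (Rl N Ω X Y ↔ ∀ c ∈ A X, c ∉ A Y)
  /-- products -/
  A_mul : ∀ X Y, IsTree Ω X → InN N X → IsTree Ω Y → InN N Y →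
    ∃ Z, IsTree Ω Z ∧ InN N Z ∧ ∀ c, c ∈ A Z ↔ c ∈ A X ∧ c ∈ A Y
  /-- the trees of the rows -/
  T : Row → Set (Fin 4 → El κ.toZFSet)
  T_tree : ∀ x ∈ Act, IsTree Ω (T x)
  A_T : ∀ x ∈ Act, ∀ c, c ∈ A (T x) ↔ c ∈ Cl ∧ x ∈ c
  /-- the set of the active rows and the family of their trees belong to `N` -/
  T_mem : ∃ z ∈ N, ∀ μ r w, (μ, r) ∈ Act → (w ∈ T (μ, r) ↔
    ZFSet.pair (ZFSet.pair μ.toZFSet (natZ r)) (tup (fun i => (w i).1)) ∈ z)
  act_mem : ∃ z ∈ N, ∀ μ r, (μ, r) ∈ Act ↔ ZFSet.pair μ.toZFSet (natZ r) ∈ z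
  /-- sequences of trees of length `κ` are bounded -/
  bdd : ∀ S : Set (Fin 5 → El κ.toZFSet), InN N S → ∃ α < lam, ∀ a, IsTree Ω (sec S a) →
    ∀ c ∈ A (sec S a), res c α ∈ A (sec S a)
  /-- bookkeeping for the rows `(μ, 2)` -/
  bk2 : ∀ x ∈ Act, ∀ α < lam, ∃ μ, α ≤ μ ∧ μ < lam ∧ xr μ x
  /-- every set of finite subsets of `κ · ω` that belongs to `N` is coded by some `θ` -/
  bk3 : ∀ Y ∈ N, ∃ θ, κ * Ordinal.omega0 ≤ θ ∧ θ < lam ∧ ∀ F, FinZ F → F ⊆ (κ * Ordinal.omega0).toZFSet →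
    ((∃ μ, (μ, 3) ∈ Act ∧ mr μ θ F) ↔ F ∈ Y)

/-- A predicate of second-order variables over the universe `κ` (and the auxiliary order variable `(2, 0)`,
whose value is the order of `κ`) is second-order definable in `N`, uniformly for all vocabularies. -/
def SOD (N : Set ZFSet.{0}) (κ : Ordinal.{0})
    (P : (ℕ → El κ.toZFSet) → ((n : ℕ) → ℕ → Set (Fin n → El κ.toZFSet)) → Prop) : Prop :=
  ∀ V : Voc, ∃ φ : Fo V, ∀ (R : (r : Fin V.nR) → Set (Fin (V.aR r) → El κ.toZFSet))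
    (F : (f : Fin V.nF) → (Fin (V.aF f) → El κ.toZFSet) → El κ.toZFSet) (v : ℕ → El κ.toZFSet)
    (ρ : (n : ℕ) → ℕ → Set (Fin n → El κ.toZFSet)), (∀ n i, InN N (ρ n i)) →
    ρ 2 0 = {w | (w 0).1 ∈ (w 1).1} → (SatF (Frm N κ.toZFSet) R F φ v ρ ↔ P v ρ)

/-- The output of the decoding part: definable well-orderings of the `n`-ary relations on `κ`. -/
structure WoAt (N : Set ZFSet.{0}) (κ : Ordinal.{0}) where
  W : (n : ℕ) → Set (Fin n → El κ.toZFSet) → Set (Fin n → El κ.toZFSet) → Prop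
  total : ∀ n X Y, InN N X → InN N Y → W n X Y ∨ W n Y X
  anti : ∀ n X Y, InN N X → InN N Y → W n X Y → W n Y X → X = Y
  min : ∀ n (C : Set (Set (Fin n → El κ.toZFSet))), (∀ X ∈ C, InN N X) → C.Nonempty → ∃ X ∈ C, ∀ Y ∈ C, W n X Y
  def' : ∀ n i j, SOD N κ (fun _ ρ => W n (ρ n (i + 1)) (ρ n (j + 1)))

end Pool.Agent.H17.CF
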