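import Pool.Agent.H17.CF.FX.SetG
import Pool.Agent.H17.CF.PD
import Pool.Agent.H7.IG.Defs

/-!
# MP_9b819f_lc: definitions of the forcing part

`M` is a countable transitive model, `Ω = ω₁` of `M`.

## Abstract part
* `finS X`: the set of the finite subsets of `X`.
* `CC M P R`: the preorder `(P, R)` is ccc in `M`, in the form: every `Z ⊆ P` in `M` contains a countable `C ∈ M`
  such that every `z ∈ Z` is compatible with some `w ∈ C`.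
* `LvZ Ω = [ω, Ω)`: the levels; `Nd Ω E = LvZ Ω × E`: the nodes (`E` countable, usually `ω`); the node `(a, m)` has
  level `a`; `Bel x y`: the level of `x` is less than the level of `y`.
* a tree graph (`TG`) is a set `I` of pairs `(x, y)` of nodes, `Bel x y` (`x` and `y` are incomparable) such that for
  `Bel x y`, `Bel y z`: `(x, y) ∈ I → (x, z) ∈ I ∨ (y, z) ∈ I` (nodes below the same node are comparable).
  `Chn`: unbounded chain.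
* `vv g ζ = {w : ∃ p ∈ g, (w, p) ∈ ζ}`: value of the simple name `ζ`.
* `OpN Ω E P R O`: `O` is an open name of a set of pairs of nodes: `((x, y), p) ∈ O` means that `p` forces that
  `x`, `y` are incomparable. `TGN`: `O` is a name of a tree graph.
* `QQ Ω E P O`, `RQ`: the iteration of `P` and the specialization of the tree graph: pairs `(p, f)`, `f` a finite
  partial function from the nodes to `ω`, `p` forces that different nodes of the same colour on different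
  levels are incomparable.
* `FC Ω E P R O q ζ`: `ζ` is an open name of a set of nodes and `q` forces that it is an unbounded chain.
* `DU O O'`: disjoint union of names of tree graphs.

## Concrete part
* entries `ent ρ y z = (ρ, (y, z))`, `row μ r = (μ, r)`; `tr K ρ y z = z △ {k ∈ y : (ρ, k) ∈ K}`: translation.
* `LE Ω c p q`: `p ≤_c q`.
* `ins X x m τ`: instruction; `s` is a function from an ordinal to instructions. `sX s μ X`, `sx s μ x`,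
  `sm s μ θ F`, `st s μ τ`: the parts of the instruction of stage `μ`.
* `Act Ω s μ q`: the marker of stage `μ` is active below `q`; `Opn Ω s μ x y q`: `q` forces that `x`, `y` are
  incomparable in the tree graph of stage `μ`.
* `IsC Ω s p`: `p` is a condition; `Sn Ω s α`: the set of the conditions with rows of stage `< α`;
  `Ln Ω s α c`: the order `≤_c` on it; `OO Ω E s β t`: the name `t` as an open name over `Sn Ω s β`.
* `Edg`, `DD s α c`: the graph on the tree rows, `c` is a clique with rows of stage `< α`; `cres c α`.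
* `Vld M Ω B s α`: `s` is a valid sequence of instructions of length `α` (`B` = the base `κ · ω`).
-/

set_option autoImplicit false
set_option linter.unusedVariables false
set_option linter.unusedSectionVars false
set_option linter.unusedSimpArgs false

open Pool.Agent.H17.Omega Pool.Agent.H17.Omega.CTM Pool.Agent.H52.GC Pool.Agent.H7.IG

namespace Pool.Agent.H17.CF

/-! ## Abstract part -/

/-- The set of the finite subsets of `X`. -/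
noncomputable def finS (X : ZFSet.{0}) : ZFSet.{0} := ZFSet.sep FinZ (ZFSet.powerset X)

theorem mem_finS {X a : ZFSet.{0}} : a ∈ finS X ↔ a ⊆ X ∧ FinZ a := by
  rw [finS, ZFSet.mem_sep, ZFSet.mem_powerset]

/-- The countable chain condition of `(P, R)`, in `M`. -/
def CC (M : Set ZFSet.{0}) (P R : ZFSet.{0}) : Prop :=
  ∀ Z ∈ M, Z ⊆ P → ∃ C ∈ M, C ⊆ Z ∧ Ctb M C ∧
    ∀ z ∈ Z, ∃ w ∈ C, ∃ r, ZFSet.pair r z ∈ R ∧ ZFSet.pair r w ∈ R

/-- The levels: `[ω, Ω)`. -/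
noncomputable def LvZ (Ω : Ordinal.{0}) : ZFSet.{0} := ZFSet.sep (fun a => omZ ⊆ a) Ω.toZFSet

/-- The nodes. -/
noncomputable def Nd (Ω : Ordinal.{0}) (E : ZFSet.{0}) : ZFSet.{0} := ZFSet.prod (LvZ Ω) E

/-- The level of `x` is less than the level of `y`. -/
def Bel (x y : ZFSet.{0}) : Prop := ∃ a m b n, x = ZFSet.pair a m ∧ y = ZFSet.pair b n ∧ a ∈ b

/-- `I` is a tree graph (the set of the pairs of incomparable nodes). -/
def TG (Ω : Ordinal.{0}) (E I : ZFSet.{0}) : Prop :=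
  ∀ x ∈ Nd Ω E, ∀ y ∈ Nd Ω E, ∀ z ∈ Nd Ω E, Bel x y → Bel y z → ZFSet.pair x y ∈ I →
    ZFSet.pair x z ∈ I ∨ ZFSet.pair y z ∈ I

/-- `C` is a chain of `I` with unbounded levels. -/
def Chn (Ω : Ordinal.{0}) (E I C : ZFSet.{0}) : Prop :=
  C ⊆ Nd Ω E ∧ (∀ x ∈ C, ∀ y ∈ C, Bel x y → ZFSet.pair x y ∉ I) ∧
    ∀ β < Ω, ∃ a m, ZFSet.pair a m ∈ C ∧ β.toZFSet ∈ a

/-- The value of a simple name. -/
noncomputable def vv (g : Set ZFSet.{0}) (ζ : ZFSet.{0}) : ZFSet.{0} :=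
  ZFSet.sep (fun w => ∃ p ∈ g, ZFSet.pair w p ∈ ζ) (ZFSet.sUnion (ZFSet.sUnion ζ))

theorem mem_vv {g : Set ZFSet.{0}} {ζ w : ZFSet.{0}} : w ∈ vv g ζ ↔ ∃ p ∈ g, ZFSet.pair w p ∈ ζ := by
  rw [vv, ZFSet.mem_sep]
  refine ⟨fun h => h.2, fun h => ⟨?_, h⟩⟩
  obtain ⟨p, hp, hw⟩ := h
  rw [ZFSet.mem_sUnion]
  refine ⟨{w, p}, ?_, by simp⟩
  rw [ZFSet.mem_sUnion]
  exact ⟨_, hw, by simp [ZFSet.pair]⟩

/-- `O` is an open name over `(P, R)` of a set of pairs of nodes. -/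
structure OpN (Ω : Ordinal.{0}) (E P R O : ZFSet.{0}) : Prop where
  sub : ∀ z ∈ O, ∃ x ∈ Nd Ω E, ∃ y ∈ Nd Ω E, ∃ p ∈ P, Bel x y ∧ z = ZFSet.pair (ZFSet.pair x y) p
  op : ∀ x y p q, ZFSet.pair (ZFSet.pair x y) q ∈ O → ZFSet.pair p q ∈ R → ZFSet.pair (ZFSet.pair x y) p ∈ O

/-- `O` is a name of a tree graph. -/
def TGN (Ω : Ordinal.{0}) (E R O : ZFSet.{0}) : Prop :=
  ∀ x ∈ Nd Ω E, ∀ y ∈ Nd Ω E, ∀ z ∈ Nd Ω E, Bel x y → Bel y z → ∀ p, ZFSet.pair (ZFSet.pair x y) p ∈ O →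
    ∃ r, ZFSet.pair r p ∈ R ∧ (ZFSet.pair (ZFSet.pair x z) r ∈ O ∨ ZFSet.pair (ZFSet.pair y z) r ∈ O)

/-- `f` is single valued. -/
def Sv (f : ZFSet.{0}) : Prop := ∀ x m n, ZFSet.pair x m ∈ f → ZFSet.pair x n ∈ f → m = n

/-- `f` is a condition of the specialization of the tree graph `I`. -/
def QI (Ω : Ordinal.{0}) (E I f : ZFSet.{0}) : Prop :=
  f ∈ finS (ZFSet.prod (Nd Ω E) omZ) ∧ Sv f ∧
    ∀ x y n, ZFSet.pair x n ∈ f → ZFSet.pair y n ∈ f → Bel x y → ZFSet.pair x y ∈ I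

/-- The conditions of the iteration of `P` and the specialization. -/
noncomputable def QQ (Ω : Ordinal.{0}) (E P O : ZFSet.{0}) : ZFSet.{0} :=
  ZFSet.sep (fun z => ∃ p f, z = ZFSet.pair p f ∧ Sv f ∧
    ∀ x y n, ZFSet.pair x n ∈ f → ZFSet.pair y n ∈ f → Bel x y → ZFSet.pair (ZFSet.pair x y) p ∈ O)
    (ZFSet.prod P (finS (ZFSet.prod (Nd Ω E) omZ)))

/-- The order of the iteration. -/
noncomputable def RQ (Ω : Ordinal.{0}) (E P R O : ZFSet.{0}) : ZFSet.{0} :=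
  ZFSet.sep (fun z => ∃ p f q g, z = ZFSet.pair (ZFSet.pair p f) (ZFSet.pair q g) ∧ ZFSet.pair p q ∈ R ∧ g ⊆ f)
    (ZFSet.prod (QQ Ω E P O) (QQ Ω E P O))

/-- `ζ` is an open name of a set of nodes, `q` forces that it is an unbounded chain. -/
structure FC (Ω : Ordinal.{0}) (E P R O q ζ : ZFSet.{0}) : Prop where
  q_mem : q ∈ P
  sub : ζ ⊆ ZFSet.prod (Nd Ω E) P
  op : ∀ x r r', ZFSet.pair x r ∈ ζ → ZFSet.pair r' r ∈ R → ZFSet.pair x r' ∈ ζ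
  ch : ∀ x y r, ZFSet.pair r q ∈ R → ZFSet.pair x r ∈ ζ → ZFSet.pair y r ∈ ζ →
    ZFSet.pair (ZFSet.pair x y) r ∉ O
  unb : ∀ r, ZFSet.pair r q ∈ R → ∀ β < Ω, ∃ r', ZFSet.pair r' r ∈ R ∧
    ∃ a m, ZFSet.pair (ZFSet.pair a m) r' ∈ ζ ∧ β.toZFSet ∈ a

/-- The disjoint union of two index sets. -/
noncomputable def DS (E E' : ZFSet.{0}) : ZFSet.{0} := ZFSet.prod {natZ 0} E ∪ ZFSet.prod {natZ 1} E'

/-- The disjoint union of two names of tree graphs. -/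
noncomputable def DU (Ω : Ordinal.{0}) (E E' P O O' : ZFSet.{0}) : ZFSet.{0} :=
  ZFSet.sep (fun z => ∃ a i m b j n p,
    z = ZFSet.pair (ZFSet.pair (ZFSet.pair a (ZFSet.pair i m)) (ZFSet.pair b (ZFSet.pair j n))) p ∧ a ∈ b ∧
    (i ≠ j ∨ (i = natZ 0 ∧ j = natZ 0 ∧ ZFSet.pair (ZFSet.pair (ZFSet.pair a m) (ZFSet.pair b n)) p ∈ O) ∨
      (i = natZ 1 ∧ j = natZ 1 ∧ ZFSet.pair (ZFSet.pair (ZFSet.pair a m) (ZFSet.pair b n)) p ∈ O')))
    (ZFSet.prod (ZFSet.prod (Nd Ω (DS E E')) (Nd Ω (DS E E'))) P)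

/-! ## Concrete part -/

/-- Entries. -/
noncomputable def ent (ρ y z : ZFSet.{0}) : ZFSet.{0} := ZFSet.pair ρ (ZFSet.pair y z)

/-- Rows. -/
noncomputable def row (μ : ZFSet.{0}) (r : ℕ) : ZFSet.{0} := ZFSet.pair μ (natZ r)

/-- The section of `K` at `ρ`, below `y`. -/
noncomputable def sK (K ρ y : ZFSet.{0}) : ZFSet.{0} := ZFSet.sep (fun k => ZFSet.pair ρ k ∈ K) y

/-- Translation. -/
noncomputable def tr (K ρ y z : ZFSet.{0}) : ZFSet.{0} := (z \ sK K ρ y) ∪ (sK K ρ y \ z)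

/-- `K` is a finite set of pairs (tree row, countable ordinal). -/
def KK (Ω : Ordinal.{0}) (K : ZFSet.{0}) : Prop :=
  FinZ K ∧ ∀ k ∈ K, ∃ μ a, (∃ r < 4, k = ZFSet.pair (row μ r) a) ∧ a ∈ Ω.toZFSet

/-- `p ≤_c q`. -/
def LE (Ω : Ordinal.{0}) (c p q : ZFSet.{0}) : Prop :=
  ∃ K, KK Ω K ∧ (∀ ρ a, ZFSet.pair ρ a ∈ K → ρ ∉ c) ∧
    ∀ ρ y z, ent ρ y z ∈ q → ent ρ y (tr K ρ y z) ∈ p

/-- Instructions. -/
noncomputable def ins (X x m τ : ZFSet.{0}) : ZFSet.{0} := ZFSet.pair (ZFSet.pair X x) (ZFSet.pair m τ)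

def sX (s μ X : ZFSet.{0}) : Prop := ∃ x m τ, ZFSet.pair μ (ins X x m τ) ∈ s

def sx (s μ x : ZFSet.{0}) : Prop := ∃ X m τ, ZFSet.pair μ (ins X x m τ) ∈ s

def sm (s μ θ F : ZFSet.{0}) : Prop := ∃ X x τ, ZFSet.pair μ (ins X x (ZFSet.pair θ F) τ) ∈ s

def st (s μ τ : ZFSet.{0}) : Prop := τ ≠ ∅ ∧ ∃ X x m, ZFSet.pair μ (ins X x m τ) ∈ s

/-- `q` decides that the marker of stage `μ` is active. -/
def Act (Ω : Ordinal.{0}) (s μ q : ZFSet.{0}) : Prop :=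
  ∃ θ F X q', sm s μ θ F ∧ sX s θ X ∧ ZFSet.pair F q' ∈ X ∧ LE Ω ∅ q q'

/-- `q` forces that `x`, `y` are incomparable in the tree graph of stage `μ`. -/
def Opn (Ω : Ordinal.{0}) (s μ x y q : ZFSet.{0}) : Prop :=
  ∃ τ q', st s μ τ ∧ ZFSet.pair (ZFSet.pair x y) q' ∈ τ ∧ LE Ω ∅ q q'

/-- The entries of `p` of stage `< μ`. -/
noncomputable def rst (p μ : ZFSet.{0}) : ZFSet.{0} :=
  ZFSet.sep (fun e => ∃ ν r t, e = ZFSet.pair (ZFSet.pair ν r) t ∧ ν ∈ μ) p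

/-- `p` is a condition. -/
structure IsC (Ω : Ordinal.{0}) (s p : ZFSet.{0}) : Prop where
  fn : ∀ ρ y z z', ent ρ y z ∈ p → ent ρ y z' ∈ p → z = z'
  ty : ∀ e ∈ p, ∃ μ y z, (∃ r < 4, e = ent (row μ r) y z ∧ y ∈ LvZ Ω ∧ z ∈ finS y) ∨
    (e = ent (row μ 4) y z ∧ y ∈ Nd Ω omZ ∧ z ∈ omZ)
  mkr : ∀ μ y z, ent (row μ 3) y z ∈ p → Act Ω s μ (rst p μ)
  sp : ∀ μ x n, ent (row μ 4) x n ∈ p → ∃ τ, st s μ τ
  sp2 : ∀ μ x y n, ent (row μ 4) x n ∈ p → ent (row μ 4) y n ∈ p → Bel x y → Opn Ω s μ x y (rst p μ)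

/-- A set that contains all entries of stage `< α`. -/
noncomputable def Ent (Ω : Ordinal.{0}) (α : ZFSet.{0}) : ZFSet.{0} :=
  ZFSet.prod (ZFSet.prod α (natZ 5)) (ZFSet.prod (Ω.toZFSet ∪ Nd Ω omZ) (finS Ω.toZFSet))

/-- The conditions with rows of stage `< α`. -/
noncomputable def Sn (Ω : Ordinal.{0}) (s α : ZFSet.{0}) : ZFSet.{0} := ZFSet.sep (IsC Ω s) (finS (Ent Ω α))

/-- The order `≤_c` on `Sn Ω s α`. -/
noncomputable def Ln (Ω : Ordinal.{0}) (s α c : ZFSet.{0}) : ZFSet.{0} :=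
  ZFSet.sep (fun z => ∃ p q, z = ZFSet.pair p q ∧ LE Ω c p q) (ZFSet.prod (Sn Ω s α) (Sn Ω s α))

/-- The open name over `Sn Ω s β` that is given by a set `t` of pairs `((x, y), q)`. -/
noncomputable def OO (Ω : Ordinal.{0}) (E s β t : ZFSet.{0}) : ZFSet.{0} :=
  ZFSet.sep (fun z => ∃ x y p q, z = ZFSet.pair (ZFSet.pair x y) p ∧ Bel x y ∧
    ZFSet.pair (ZFSet.pair x y) q ∈ t ∧ LE Ω ∅ p q)
    (ZFSet.prod (ZFSet.prod (Nd Ω E) (Nd Ω E)) (Sn Ω s β))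

/-- The edges of the graph on the tree rows (`ρ` is the upper vertex). -/
def Edg (s ρ ρ' : ZFSet.{0}) : Prop :=
  ∃ μ, (ρ = row μ 1 ∧ ∃ ν, ρ' = row ν 0 ∧ (ν ∈ μ ∨ ν = μ)) ∨ (ρ = row μ 2 ∧ sx s μ ρ') ∨
    (ρ = row μ 3 ∧ ∃ θ F f, sm s μ θ F ∧ ρ' = row f 0 ∧ (f = θ ∨ f ∈ F))

/-- The tree rows of stage `< α`. -/
noncomputable def TR (α : ZFSet.{0}) : ZFSet.{0} := ZFSet.prod α (natZ 4)

/-- `c` is a clique with rows of stage `< α`. -/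
def DD (s α c : ZFSet.{0}) : Prop :=
  c = ∅ ∨ (∃ ρ ∈ TR α, c = {ρ}) ∨ ∃ ρ ∈ TR α, ∃ ρ' ∈ TR α, Edg s ρ ρ' ∧ c = {ρ, ρ'}

/-- The rows of `c` of stage `< α`. -/
noncomputable def cres (c α : ZFSet.{0}) : ZFSet.{0} :=
  ZFSet.sep (fun ρ => ∃ μ ∈ α, ∃ r, ρ = ZFSet.pair μ r) c

/-- `s` is a valid sequence of instructions of length `α`, in `M` (`B` is the base `κ · ω`). -/
structure Vld (M : Set ZFSet.{0}) (Ω : Ordinal.{0}) (B s α : ZFSet.{0}) : Prop where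
  sub : ∀ z ∈ s, ∃ μ ∈ α, ∃ X x m τ, z = ZFSet.pair μ (ins X x m τ)
  tot : ∀ μ ∈ α, ∃ X x m τ, ZFSet.pair μ (ins X x m τ) ∈ s
  uni : ∀ μ i j, ZFSet.pair μ i ∈ s → ZFSet.pair μ j ∈ s → i = j
  hX : ∀ μ X x m τ, ZFSet.pair μ (ins X x m τ) ∈ s → X ⊆ ZFSet.prod (finS B) (finS (Ent Ω μ))
  hx : ∀ μ X x m τ, ZFSet.pair μ (ins X x m τ) ∈ s → x = ∅ ∨ x ∈ TR μ
  hm : ∀ μ X x m τ, ZFSet.pair μ (ins X x m τ) ∈ s →
    m = ∅ ∨ ∃ θ ∈ μ, ∃ F ∈ finS B, B ⊆ θ ∧ m = ZFSet.pair θ F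
  hτ : ∀ μ X x m τ, ZFSet.pair μ (ins X x m τ) ∈ s → τ = ∅ ∨
    (τ ⊆ ZFSet.prod (ZFSet.prod (Nd Ω omZ) (Nd Ω omZ)) (Sn Ω s μ) ∧
      TGN Ω omZ (Ln Ω s μ ∅) (OO Ω omZ s μ τ) ∧
      ∀ c, DD s μ c → CC M (QQ Ω omZ (Sn Ω s μ) (OO Ω omZ s μ τ))
        (RQ Ω omZ (Sn Ω s μ) (Ln Ω s μ c) (OO Ω omZ s μ τ)))

end Pool.Agent.H17.CF
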