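import Pool.Agent.H52.GC.Fin

/-!
# Second-order logic in a model `N` of set theory

Full second-order semantics in the sense of `N`: second-order variables range over all relations on the
universe that are elements of `N` (coded as sets of tuples).
-/

set_option autoImplicit false
set_option linter.unusedVariables false
set_option linter.unusedSectionVars false
set_option linter.unusedSimpArgs false

open Pool.Agent.H17.Omega Pool.Agent.H17.Omega.CTM Pool.Agent.H52.GC

namespace Pool.Agent.H17.CF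

/-- A finite vocabulary: finitely many relation symbols and function symbols with their arities
(constants are function symbols of arity `0`). -/
structure Voc where
  /-- number of relation symbols -/
  nR : ℕ
  /-- arities of the relation symbols -/
  aR : Fin nR → ℕ
  /-- number of function symbols -/
  nF : ℕ
  /-- arities of the function symbols -/
  aF : Fin nF → ℕ

/-- Terms. -/
inductive Tm (V : Voc) : Type
  | var (x : ℕ) : Tm V
  | app (f : Fin V.nF) (ts : Fin (V.aF f) → Tm V) : Tm V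

/-- Second-order formulas. `app n i ts` is the atomic formula `X(ts)` where `X` is the `i`-th second-order
variable of arity `n`; `all x` quantifies over elements, `allR n i` over `n`-ary relations. -/
inductive Fo (V : Voc) : Type
  | bot : Fo V
  | eq (s t : Tm V) : Fo V
  | rel (r : Fin V.nR) (ts : Fin (V.aR r) → Tm V) : Fo V
  | app (n i : ℕ) (ts : Fin n → Tm V) : Fo V
  | imp (φ ψ : Fo V) : Fo V
  | all (x : ℕ) (φ : Fo V) : Fo V
  | allR (n i : ℕ) (φ : Fo V) : Fo V

/-- All variables of the term are in the list. -/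
def Tm.closed {V : Voc} (xs : List ℕ) : Tm V → Prop
  | .var x => x ∈ xs
  | .app _ ts => ∀ i, (ts i).closed xs

/-- All free variables of the formula are in the lists. -/
def Fo.closed {V : Voc} : List ℕ → List (ℕ × ℕ) → Fo V → Prop
  | _, _, .bot => True
  | xs, _, .eq s t => s.closed xs ∧ t.closed xs
  | xs, _, .rel _ ts => ∀ i, (ts i).closed xs
  | xs, Xs, .app n i ts => (n, i) ∈ Xs ∧ ∀ j, (ts j).closed xs
  | xs, Xs, .imp φ ψ => φ.closed xs Xs ∧ ψ.closed xs Xs
  | xs, Xs, .all x φ => φ.closed (x :: xs) Xs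
  | xs, Xs, .allR n i φ => φ.closed xs ((n, i) :: Xs)

/-- Second-order sentences. -/
def Sentence {V : Voc} (φ : Fo V) : Prop := φ.closed [] []

/-- Value of a term. -/
def Tm.val {V : Voc} {D : Type 1} (F : (f : Fin V.nF) → (Fin (V.aF f) → D) → D) (v : ℕ → D) : Tm V → D
  | .var x => v x
  | .app f ts => F f (fun i => (ts i).val F v)

/-- Change the value of the second-order variable `(n, i)`. -/
def updR {D : Type 1} (ρ : (n : ℕ) → ℕ → Set (Fin n → D)) (n i : ℕ) (X : Set (Fin n → D)) :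
    (n : ℕ) → ℕ → Set (Fin n → D) := Function.update ρ n (Function.update (ρ n) i X)

/-- Satisfaction in the structure `(D; R, F)`, where second-order variables of arity `n` range over `𝓕 n`. -/
def SatF {V : Voc} {D : Type 1} (𝓕 : (n : ℕ) → Set (Set (Fin n → D)))
    (R : (r : Fin V.nR) → Set (Fin (V.aR r) → D)) (F : (f : Fin V.nF) → (Fin (V.aF f) → D) → D) :
    Fo V → (ℕ → D) → ((n : ℕ) → ℕ → Set (Fin n → D)) → Prop
  | .bot, _, _ => False
  | .eq s t, v, _ => s.val F v = t.val F v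
  | .rel r ts, v, _ => (fun i => (ts i).val F v) ∈ R r
  | .app n i ts, v, ρ => (fun j => (ts j).val F v) ∈ ρ n i
  | .imp φ ψ, v, ρ => SatF 𝓕 R F φ v ρ → SatF 𝓕 R F ψ v ρ
  | .all x φ, v, ρ => ∀ d : D, SatF 𝓕 R F φ (Function.update v x d) ρ
  | .allR n i φ, v, ρ => ∀ X ∈ 𝓕 n, SatF 𝓕 R F φ v (updR ρ n i X)

/-- The elements of the set `A`, as a type. -/
abbrev El (A : ZFSet.{0}) : Type 1 := {x : ZFSet.{0} // x ∈ A}

/-- The code of a finite list of sets. -/
def tupL : List ZFSet.{0} → ZFSet.{0}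
  | [] => ∅
  | a :: l => ZFSet.pair a (tupL l)

/-- The code of a tuple. -/
def tup {n : ℕ} (w : Fin n → ZFSet.{0}) : ZFSet.{0} := tupL (List.ofFn w)

/-- The relation `X` on `A` is (coded by) an element of `N`. -/
def InN (N : Set ZFSet.{0}) {A : ZFSet.{0}} {n : ℕ} (X : Set (Fin n → El A)) : Prop :=
  ∃ z ∈ N, ∀ w : Fin n → El A, w ∈ X ↔ tup (fun i => (w i).1) ∈ z

/-- The relations of the model `N` on the set `A`. -/
def Frm (N : Set ZFSet.{0}) (A : ZFSet.{0}) (n : ℕ) : Set (Set (Fin n → El A)) := {X | InN N X}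

/-- The graph of a function, as a relation. -/
def grF {D : Type 1} {n : ℕ} (f : (Fin n → D) → D) : Set (Fin (n + 1) → D) :=
  {w | w (Fin.last n) = f (fun i => w i.castSucc)}

/-- A structure of vocabulary `V` that is an element of `N`: a nonempty universe `A ∈ N` and relations and
functions in `N`. -/
structure Str (N : Set ZFSet.{0}) (V : Voc) where
  /-- the universe -/
  A : ZFSet.{0}
  memA : A ∈ N
  ne : ∃ x, x ∈ A
  /-- the relations -/
  R : (r : Fin V.nR) → Set (Fin (V.aR r) → El A)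
  memR : ∀ r, InN N (R r)
  /-- the functions -/
  F : (f : Fin V.nF) → (Fin (V.aF f) → El A) → El A
  memF : ∀ f, InN N (grF (F f))

/-- `𝔄` satisfies `φ`, in `N` (for all assignments). -/
def Holds {N : Set ZFSet.{0}} {V : Voc} (𝔄 : Str N V) (φ : Fo V) : Prop :=
  ∀ (v : ℕ → El 𝔄.A) (ρ : (n : ℕ) → ℕ → Set (Fin n → El 𝔄.A)), (∀ n i, InN N (ρ n i)) →
    SatF (Frm N 𝔄.A) 𝔄.R 𝔄.F φ v ρ

/-- `𝔄` is a model of the finite theory `T`. -/
def Models {N : Set ZFSet.{0}} {V : Voc} (𝔄 : Str N V) (T : List (Fo V)) : Prop := ∀ φ ∈ T, Holds 𝔄 φ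

/-- `T` is complete, in `N`. -/
def Complete (N : Set ZFSet.{0}) {V : Voc} (T : List (Fo V)) : Prop :=
  ∀ φ : Fo V, Sentence φ → (∀ 𝔄 : Str N V, Models 𝔄 T → Holds 𝔄 φ) ∨
    ∀ 𝔄 : Str N V, Models 𝔄 T → Holds 𝔄 (.imp φ .bot)

/-- `f` is a bijection from `A` to `B` that belongs to `N`. -/
def BijN (N : Set ZFSet.{0}) {A B : ZFSet.{0}} (f : El A ≃ El B) : Prop :=
  ∃ z ∈ N, ∀ (a : El A) (b : El B), f a = b ↔ ZFSet.pair a.1 b.1 ∈ z

/-- `𝔄` and `𝔅` are isomorphic, in `N`. -/
def Isom {N : Set ZFSet.{0}} {V : Voc} (𝔄 𝔅 : Str N V) : Prop :=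
  ∃ f : El 𝔄.A ≃ El 𝔅.A, BijN N f ∧ (∀ r w, w ∈ 𝔄.R r ↔ (fun i => f (w i)) ∈ 𝔅.R r) ∧
    ∀ g w, f (𝔄.F g w) = 𝔅.F g (fun i => f (w i))

/-- `T` is categorical, in `N`. -/
def Categorical (N : Set ZFSet.{0}) {V : Voc} (T : List (Fo V)) : Prop :=
  ∀ 𝔄 𝔅 : Str N V, Models 𝔄 T → Models 𝔅 T → Isom 𝔄 𝔅

/-- The structure `𝔄` has cardinality `κ`, in `N`. -/
def HasCard {N : Set ZFSet.{0}} {V : Voc} (𝔄 : Str N V) (κ : Ordinal.{0}) : Prop :=
  ∃ f : El κ.toZFSet ≃ El 𝔄.A, BijN N f

/-- In `N`, every finite complete second-order theory (in a finite vocabulary) that has a model of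
cardinality `κ` is categorical. -/
def CatAt (N : Set ZFSet.{0}) (κ : Ordinal.{0}) : Prop :=
  ∀ (V : Voc) (T : List (Fo V)), (∀ φ ∈ T, Sentence φ) → Complete N T →
    (∃ 𝔄 : Str N V, Models 𝔄 T ∧ HasCard 𝔄 κ) → Categorical N T

end Pool.Agent.H17.CF
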